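import Pool.Agent.Lib.MP_97284c_gt.Q.Fin

/-!
# MP_97284c_gt, part O: odd `n` and `n = 4`
-/

namespace Pool.Agent.Lib.MP_97284c_gt

open MeasureTheory

/-- the supremum over the simple polygons is attained and equal to `smallArea n` -/
theorem isGreatest_areas {n : ℕ} [NeZero n] (hn : 3 ≤ n) : IsGreatest (areas n) (smallArea n) := by
  obtain ⟨w, hw1, hw2, hw3, hw4, hw5, hw6⟩ := exists_max' (n := n) hn
  have hA := smallArea_eq hn hw1 hw3 hw5
  constructor
  · refine ⟨w, ⟨MP97284cP.isSimple_of_ccw hw1 hn, fun i j => by rw [dist_eq_norm]; exact hw3 i j⟩, ?_⟩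
    unfold parea
    rw [MP97284cP.volume_inside hw1 hn, hw1.volume_hull hn, ENNReal.toReal_ofReal hw4.le, hA]
  · rintro A ⟨v, hv, rfl⟩
    exact (simple_le hn hv).1

theorem o_lower (hR1 : S_R1) (hR2 : S_R2) (hA4 : S_A4) (hA7 : S_A7) {N : ℕ} (hN : Odd N)
    (h3 : 3 ≤ N) : N * ff (Real.pi / N) ≤ smallArea N := by
  have hNpos : (0 : ℝ) < N := by
    have : 0 < N := by omega
    exact_mod_cast this
  have hN3 : (3 : ℝ) ≤ N := by exact_mod_cast h3
  have hpi := Real.pi_pos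
  obtain ⟨c, hc⟩ : ∃ c, c = Real.cos (Real.pi / (2 * N)) := ⟨_, rfl⟩
  obtain ⟨s, hs⟩ : ∃ s, s = Real.sin (Real.pi / (2 * N)) := ⟨_, rfl⟩
  obtain ⟨R, hR⟩ : ∃ R, R = 1 / (2 * Real.cos (Real.pi / (2 * N))) := ⟨_, rfl⟩
  have hhalf : Real.pi / N / 2 = Real.pi / (2 * N) := by field_simp
  have hle : Real.pi / (2 * N) ≤ Real.pi / 6 := by
    apply div_le_div_of_nonneg_left hpi.le (by norm_num)
    linarith
  have hpos : 0 < Real.pi / (2 * N) := by positivity
  have hcpos : 0 < c := by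
    rw [hc]
    apply Real.cos_pos_of_mem_Ioo
    constructor <;> linarith
  have hRc : R = 1 / (2 * c) := by rw [hR, hc]
  have hRpos : 0 < R := by
    rw [hRc]
    positivity
  have hcos : Real.cos (Real.pi / N) = 2 * c ^ 2 - 1 := by
    rw [hc, ← hhalf, ← Real.cos_two_mul]
    congr 1
    ring
  have hsin : Real.sin (Real.pi / N) = 2 * s * c := by
    rw [hc, hs, ← hhalf, ← Real.sin_two_mul]
    congr 1
    ring
  set y : ℕ → ℂ := fun k : ℕ => (R : ℂ) * Complex.exp ((2 * Real.pi * k / N : ℝ) * Complex.I)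
    with hy
  obtain ⟨hW, hfan⟩ := hR1 N R h3 hRpos
  obtain ⟨hd1, hd2⟩ := hR2 N hN h3 R hR
  have harea : hArea (pts N y) = N * R ^ 2 * Real.sin (2 * Real.pi / N) / 2 := by
    rw [hA4 N y (by omega) hW]
    exact hfan
  have hsin2 : Real.sin (2 * Real.pi / N) = 2 * (2 * s * c) * (2 * c ^ 2 - 1) := by
    rw [← hsin, ← hcos, ← Real.sin_two_mul]
    congr 1
    ring
  have hff : N * ff (Real.pi / N) = N * R ^ 2 * Real.sin (2 * Real.pi / N) / 2 := by
    have htan : Real.tan (Real.pi / N / 2) = s / c := by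
      rw [hhalf, Real.tan_eq_sin_div_cos, ← hs, ← hc]
    unfold ff
    rw [htan, hsin, hsin2, hRc]
    field_simp
  have hmax := (hA7 N (by omega)).2 (fun i : Fin N => y i) (fun i j => by
    rw [dist_eq_norm]; exact hd1 i j i.isLt j.isLt)
  have hrange : Set.range (fun i : Fin N => y i) = pts N y := by
    ext z
    constructor
    · rintro ⟨i, rfl⟩; exact ⟨i, i.isLt, rfl⟩
    · rintro ⟨i, hi, rfl⟩; exact ⟨⟨i, hi⟩, rfl⟩
  rw [hrange, harea] at hmax
  rw [hff]; exact hmax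

/-- the value of Reinhardt -/
theorem o_formula {n : ℕ} (hn : 3 ≤ n) : (n : ℝ) * ff (Real.pi / n) =
    n * Real.sin (2 * Real.pi / n) / (8 * Real.cos (Real.pi / (2 * n)) ^ 2) := by
  have hNpos : (0 : ℝ) < n := by
    have : 0 < n := by omega
    exact_mod_cast this
  have hN3 : (3 : ℝ) ≤ n := by exact_mod_cast hn
  have hpi := Real.pi_pos
  have hhalf : Real.pi / n / 2 = Real.pi / (2 * n) := by field_simp
  have hle : Real.pi / (2 * n) ≤ Real.pi / 6 := by
    apply div_le_div_of_nonneg_left hpi.le (by norm_num)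
    linarith
  have hpos : 0 < Real.pi / (2 * n) := by positivity
  have hc : 0 < Real.cos (Real.pi / (2 * n)) := by
    apply Real.cos_pos_of_mem_Ioo
    constructor <;> linarith
  have h2 : Real.sin (2 * Real.pi / n) = 2 * Real.sin (Real.pi / n) * Real.cos (Real.pi / n) := by
    rw [← Real.sin_two_mul]; congr 1; ring
  have h3 : Real.sin (Real.pi / n) = 2 * Real.sin (Real.pi / (2 * n)) * Real.cos (Real.pi / (2 * n)) := by
    rw [← Real.sin_two_mul]; congr 1; field_simp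
  have h4 : Real.cos (Real.pi / n) = 2 * Real.cos (Real.pi / (2 * n)) ^ 2 - 1 := by
    rw [← Real.cos_two_mul]; congr 1; field_simp
  unfold ff
  rw [h2, hhalf, Real.tan_eq_sin_div_cos, h4, h3]
  field_simp
  ring

/-- the upper bound for `n ≥ 5` -/
theorem o_upper (H : Inp) (hS7 : S_S7) (hS8 : S_S8) {n : ℕ} (hn : 5 ≤ n) :
    smallArea n ≤ n * ff (Real.pi / n) := by
  obtain ⟨⟨y, hO⟩, hOsh⟩ := H.A9 n (by omega)
  have hocc : ∀ k, Occ n y k := fun k =>
    m_all H.P0 H.P1 H.P2 H.C1 H.C3 H.C3b H.C4 H.UPs H.T1 H.T7 hn hO k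
  obtain ⟨I, J', e, hst⟩ := H.S1a n y (by omega) hO hocc
  obtain ⟨β, hang⟩ := H.S1c n y I J' e (by omega) hO.1 hO.2.1 hO.2.2.1 hst
  have h2 := hS7 n y I J' e β (by omega) hO.1 hst hang
  have hn0 : (5 : ℝ) ≤ (n : ℝ) := by exact_mod_cast hn
  have hnpos : (0 : ℝ) < (n : ℝ) := by linarith
  have hpi := Real.pi_pos
  set b : ℝ := Real.pi / n with hb
  have hb0 : 0 < b := div_pos hpi hnpos
  have hb3 : b ≤ Real.pi / 3 := div_le_div_of_nonneg_left hpi.le (by norm_num) (by linarith)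
  have hnb : (n : ℝ) * b = Real.pi := by rw [hb]; field_simp
  have hβ0 : ∀ k, 0 ≤ β k := fun k => (hang.pos k).le
  have h1 : ∑ k ∈ Finset.range n, ff (β k) ≤ n * ff b := by
    have h3 : ∀ k ∈ Finset.range n, ff (β (k : ℤ)) ≤ ff b + ff' b * (β k - b) := by
      intro k _
      have h4 := hS8 (β k) b (hβ0 _) (hang.le _) hb0 hb3
      have h5 : 0 ≤ (β k - b) ^ 2 * (β k + 2 * b) := by
        have : 0 ≤ β (k : ℤ) + 2 * b := by linarith [hβ0 k]
        positivity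
      linarith
    refine (Finset.sum_le_sum h3).trans (le_of_eq ?_)
    rw [Finset.sum_add_distrib, ← Finset.mul_sum, Finset.sum_sub_distrib, hang.sum]
    simp only [Finset.sum_const, Finset.card_range, nsmul_eq_mul]
    rw [hnb]
    ring
  have h6 : 0 ≤ ∑ k ∈ SS n e, β ((k : ℤ) - 1) * β k * (β ((k : ℤ) - 1) + β k) :=
    Finset.sum_nonneg fun i _ => mul_nonneg (mul_nonneg (hβ0 _) (hβ0 _)) (add_nonneg (hβ0 _) (hβ0 _))
  rw [← hOsh y hO]
  linarith

theorem o_tri {a b : ℂ} (ha : ‖a‖ ≤ 1) (hb : ‖b‖ ≤ 1) (hab : ‖a - b‖ ≤ 1) : cr a b ^ 2 ≤ 3 / 4 := by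
  have h1 := cr_sq_add_dt_sq a b
  have h2 := normsq_sub a b
  have hA : ‖a‖ ^ 2 ≤ 1 := pow_le_one₀ (norm_nonneg _) ha
  have hB : ‖b‖ ^ 2 ≤ 1 := pow_le_one₀ (norm_nonneg _) hb
  have hC : ‖a - b‖ ^ 2 ≤ 1 := pow_le_one₀ (norm_nonneg _) hab
  have hA0 : 0 ≤ ‖a‖ ^ 2 := by positivity
  have hB0 : 0 ≤ ‖b‖ ^ 2 := by positivity
  set A := ‖a‖ ^ 2
  set B := ‖b‖ ^ 2
  rcases le_or_gt 1 (A + B) with h | h
  · have h3 : (A + B - 1) / 2 ≤ dt a b := by linarith
    have h4 : ((A + B - 1) / 2) ^ 2 ≤ dt a b ^ 2 := pow_le_pow_left₀ (by linarith) h3 2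
    nlinarith [sq_nonneg (A - B)]
  · nlinarith [sq_nonneg (A - B), sq_nonneg (dt a b)]

/-- the triangle -/
theorem o_three : smallArea 3 ≤ (3 : ℕ) * ff (Real.pi / (3 : ℕ)) := by
  obtain ⟨v, hv1, hv2, hv3, hv4, hv5, hv6⟩ := exists_max' (n := 3) (by norm_num)
  rw [smallArea_eq (by norm_num) hv1 hv3 hv5]
  have h1 : MP97284cP.sh v = cr (v 1 - v 0) (v 2 - v 0) / 2 := by
    unfold MP97284cP.sh MP97284cP.cr cr
    simp [Fin.sum_univ_three]
    ring
  have h2 := o_tri (a := v 1 - v 0) (b := v 2 - v 0) (hv3 1 0) (hv3 2 0) (by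
    have : v 1 - v 0 - (v 2 - v 0) = v 1 - v 2 := by ring
    rw [this]; exact hv3 1 2)
  have h3 : ff (Real.pi / (3 : ℕ)) = Real.sqrt 3 / 12 := by
    unfold ff
    have e : Real.pi / ((3 : ℕ) : ℝ) = Real.pi / 3 := by norm_num
    have e2 : Real.pi / 3 / 2 = Real.pi / 6 := by ring
    rw [e, e2, Real.sin_pi_div_three, Real.tan_pi_div_six]
    have h3 : Real.sqrt 3 ^ 2 = 3 := Real.sq_sqrt (by norm_num)
    have h4 : (0 : ℝ) < Real.sqrt 3 := by positivity
    field_simp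
    nlinarith
  rw [h3, h1]
  have h5 : cr (v 1 - v 0) (v 2 - v 0) ≤ Real.sqrt 3 / 2 := by
    have h6 : Real.sqrt 3 ^ 2 = 3 := Real.sq_sqrt (by norm_num)
    have h7 : (0 : ℝ) < Real.sqrt 3 := by positivity
    nlinarith
  push_cast
  linarith

/-- the quadrilateral -/
theorem o_four : smallArea 4 = 1 / 2 := by
  obtain ⟨v, hv1, hv2, hv3, hv4, hv5, hv6⟩ := exists_max' (n := 4) (by norm_num)
  apply le_antisymm
  · rw [smallArea_eq (by norm_num) hv1 hv3 hv5]
    have h1 : MP97284cP.sh v = cr (v 2 - v 0) (v 3 - v 1) / 2 := by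
      unfold MP97284cP.sh MP97284cP.cr cr
      simp [Fin.sum_univ_four]
      ring
    have h2 := cr_sq_add_dt_sq (v 2 - v 0) (v 3 - v 1)
    have hA : ‖v 2 - v 0‖ ^ 2 ≤ 1 := pow_le_one₀ (norm_nonneg _) (hv3 2 0)
    have hB : ‖v 3 - v 1‖ ^ 2 ≤ 1 := pow_le_one₀ (norm_nonneg _) (hv3 3 1)
    have h3 : ‖v 2 - v 0‖ ^ 2 * ‖v 3 - v 1‖ ^ 2 ≤ 1 := mul_le_one₀ hA (by positivity) hB
    have h4 : cr (v 2 - v 0) (v 3 - v 1) ≤ 1 := by nlinarith [sq_nonneg (dt (v 2 - v 0) (v 3 - v 1))]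
    rw [h1]; linarith
  · -- the square
    let u : Fin 4 → ℂ := ![(1 / 2 : ℂ), (1 / 2 : ℂ) * Complex.I, -(1 / 2 : ℂ), -(1 / 2 : ℂ) * Complex.I]
    have hu : MP97284cP.Ccw u := by
      intro i j k hij hjk
      fin_cases i <;> fin_cases j <;> fin_cases k <;>
        simp [u, MP97284cP.ori] at hij hjk ⊢ <;> norm_num
    have hsm : MP97284cP.Small u := by
      have key : ∀ i j, ‖u i - u j‖ ^ 2 ≤ 1 := by
        intro i j
        rw [← Complex.normSq_eq_norm_sq, Complex.normSq_apply]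
        fin_cases i <;> fin_cases j <;> simp [u] <;> norm_num
      intro i j
      have := key i j
      exact (pow_le_one_iff_of_nonneg (norm_nonneg _) (by norm_num)).1 this
    have hsh : MP97284cP.sh u = 1 / 2 := by
      unfold MP97284cP.sh MP97284cP.cr
      simp [Fin.sum_univ_four, u]
      norm_num
    have h1 := hv5 u hsm
    rw [hu.volume_hull (by norm_num), hsh, ← smallArea_eq (by norm_num) hv1 hv3 hv5] at h1
    have hpos : 0 ≤ smallArea 4 := by rw [smallArea_eq (by norm_num) hv1 hv3 hv5]; exact hv4.le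
    exact (ENNReal.ofReal_le_ofReal_iff hpos).1 h1

/-- odd `n` -/
theorem o_odd (H : Inp) (hS7 : S_S7) (hS8 : S_S8) (hR1 : S_R1) (hR2 : S_R2) (hA4 : S_A4)
    (hA7 : S_A7) {n : ℕ} [NeZero n] (hodd : Odd n) (hn : 3 ≤ n) :
    IsGreatest (areas n) (n * Real.sin (2 * Real.pi / n) / (8 * Real.cos (Real.pi / (2 * n)) ^ 2)) := by
  rw [← o_formula hn]
  have h : smallArea n = n * ff (Real.pi / n) := by
    apply le_antisymm
    · rcases eq_or_lt_of_le hn with h | h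
      · subst h; exact o_three
      · obtain ⟨q, hq⟩ := hodd
        exact o_upper H hS7 hS8 (by omega)
    · exact o_lower hR1 hR2 hA4 hA7 hodd hn
  rw [← h]
  exact isGreatest_areas hn

theorem o_quad : IsGreatest (areas 4) (1 / 2) := by
  rw [← o_four]
  exact isGreatest_areas (by norm_num)

end Pool.Agent.Lib.MP_97284c_gt
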